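import Pool.Agent.R203.TD

/-!
# MP_0638d8_an, Q2: essential transfinite diameters of the iterates of a set under a mixing map

Negative answer to Q2.
-/

set_option autoImplicit false

open MeasureTheory Filter Topology Set
open Pool.Agent.R203.TD

namespace Pool.Agent.Results.MP_0638d8_an.EssentialVersion

/-- There are a metric space `S`, a probability measure `P` on `S` for which all open balls are
measurable and have positive measure, a mixing map `ψ` which maps measurable sets to measurable
sets, and a measurable set `A` of positive measure such that `S` has transfinite diameter `1`, but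
all iterates `ψ^n A` have essential transfinite diameter at most `1 / e`; in particular
`ess ρ(ψ^n A)` does not tend to `ρ(S)`. -/
theorem result : ∃ (S : Type) (_ : MetricSpace S) (_ : MeasurableSpace S) (P : Measure S)
    (ψ : S → S) (A : Set S), IsProbabilityMeasure P ∧ BallsPositive P ∧ IsMixing P ψ ∧
      (∀ B : Set S, MeasurableSet B → MeasurableSet (ψ '' B)) ∧
      MeasurableSet A ∧ 0 < P A ∧ rho (univ : Set S) = 1 ∧
      (∀ n : ℕ, essRho P (ψ^[n] '' A) ≤ ENNReal.ofReal (Real.exp (-1))) ∧
      ¬ Tendsto (fun n : ℕ => essRho P (ψ^[n] '' A)) atTop (𝓝 (rho (univ : Set S))) := by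
  obtain ⟨K, hK⟩ := exists_levels
  have hm : ∀ n : ℕ, MeasurableSet (psi^[n] '' setA K) := by
    intro n
    induction n with
    | zero => simpa using setA_meas K
    | succ n ih =>
      rw [Function.iterate_succ', image_comp]
      exact images_measurable _ ih
  have h1 : ∀ n : ℕ, essRho P (psi^[n] '' setA K) ≤ ENNReal.ofReal (Real.exp (-1)) := by
    intro n
    unfold essRho
    refine (iInf₂_le (psi^[n] '' setA K) ⟨Subset.rfl, hm n, rfl⟩).trans ?_
    exact rho_cells (iterate_cells K n)
  refine ⟨Sp, inferInstance, inferInstance, P, psi, setA K, inferInstance, balls, psi_mixing,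
    images_measurable, setA_meas K, setA_pos hK, rho_univ, h1, fun h => ?_⟩
  rw [rho_univ] at h
  have h2 := le_of_tendsto h (Eventually.of_forall h1)
  rw [← ENNReal.ofReal_one, ENNReal.ofReal_le_ofReal_iff (Real.exp_pos _).le] at h2
  have h3 : Real.exp (-1) < Real.exp 0 := Real.exp_lt_exp.2 (by norm_num)
  rw [Real.exp_zero] at h3
  linarith

end Pool.Agent.Results.MP_0638d8_an.EssentialVersion
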